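import Pool.Agent.Helper82_PFE.TXR
import Pool.Agent.Helper33_PFE.TXA
import Pool.Agent.Helper77_PFE.NFR
import Pool.Agent.Helper52_PFE.STF
import Pool.Agent.Helper23_PFE.RTK
import Pool.Agent.Helper21_PFE.SFE
import Pool.Agent.Helper68_PFE.IDF
import Pool.Agent.Helper79_PFE.CRN
import Pool.Agent.Helper55_PFE.CZF
import Pool.Agent.Helper47_PFE.NIL
import Pool.Agent.Helper68_PFE.JPR
import Pool.Agent.Helper29_PFE.LSC
import Pool.Agent.Helper32_PFE.NWS
import Pool.Agent.Helper58_PFE.RHO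
import Pool.Agent.Helper90_PFE.CCE
import Pool.Agent.Helper63_PFE.SGR
import Pool.Agent.Helper25_PFE.CFS
import Pool.Agent.Helper9_PFE.CFU
import Pool.Agent.Helper47_PFE.CUF
import Pool.Agent.Helper40_PFE.PRJ
import Pool.Agent.Helper86_PFE.KNX
import Pool.Agent.Helper55_PFE.TWT
import Pool.Agent.Helper58_PFE.SPC
import Pool.Agent.Helper10_PFE.RFC
import Pool.Agent.Helper67_PFE.KMX
import Pool.Agent.Helper41_PFE.KCR
import Pool.Agent.Helper70_PFE.KTT
import Pool.Agent.Helper7_PFE.KZT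
import Pool.Agent.Helper32_PFE.KKL
import Pool.Agent.Helper27_PFE.ZCB
import Pool.Agent.Helper81_PFE.ZCS
import Pool.Agent.Helper1_PFE.TPE
import Pool.Agent.Helper10_PFE.GUP
import Pool.Agent.Helper53_PFE.GWF
import Pool.Agent.Helper2_PFE.GEX
import Pool.Agent.Helper52_PFE.GFR
import Pool.Agent.Helper59_PFE.XEX
import Pool.Agent.Helper21_PFE.XRD
import Pool.Agent.Helper23_PFE.YFP
import Pool.Agent.Helper70_PFE.KEX
import Pool.Agent.Helper20_PFE.KEF
import Pool.Agent.Helper15_PFE.HOY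
import Pool.Agent.Helper62_PFE.LHY
import Pool.Agent.Helper70_PFE.BBY
import Pool.Agent.Helper28_PFE.MFY
import Pool.Agent.Helper20_PFE.LBY
import Pool.Agent.Helper92_PFE.SPY
import Pool.Agent.Helper28_PFE.FRA
import Pool.Agent.Helper53_PFE.FRS
import Pool.Agent.Helper56_PFE.LYE
import Pool.Agent.Helper1_PFE.NXO
import Pool.Agent.Helper39_PFE.CLY
import Pool.Agent.Helper84_PFE.ORY
import Pool.Agent.Helper20_PFE.LZE
import Pool.Agent.Helper13_PFE.ZOY
import Pool.Agent.Helper62_PFE.FSY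
import Pool.Agent.Helper13_PFE.YDR
import Pool.Agent.Helper46_PFE.RTW
import Pool.Agent.Helper41_PFE.YGR
import Pool.Agent.Helper10_PFE.LSE
import Pool.Agent.Helper17_PFE.LSF
import Pool.Agent.Helper77_PFE.SFR
import Pool.Agent.Helper32_PFE.TSV
import Pool.Agent.Helper85_PFE.WSE
import Pool.Agent.Helper25_PFE.HUL
import Pool.Agent.Helper44_PFE.WFX
import Pool.Agent.Helper53_PFE.ZSY
import Pool.Agent.Helper70_PFE.K1N
import Pool.Agent.Helper20_PFE.K1U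
import Pool.Agent.Helper25_PFE.S1Y
import Pool.Agent.Helper15_PFE.S1F
import Pool.Agent.Helper41_PFE.BYD
import Pool.Agent.Helper92_PFE.BLS
import Pool.Agent.Helper32_PFE.BS1
import Pool.Agent.Helper91_PFE.HSY
import Pool.Agent.Helper41_PFE.ZPY
import Pool.Agent.Helper80_PFE.YKY
import Pool.Agent.Helper40_PFE.TPR
import Pool.Agent.PFD.D1.Final
import Pool.Agent.Helper79_PFD.EXX
import Pool.Agent.Helper94_PFD.PLG
import Pool.Agent.Helper76_PFD.IDG
import Pool.Agent.Helper10_PFD.Sug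
import Pool.Agent.Helper17_PFD.LBG
import Pool.Agent.Helper72_PFD.Alx
import Pool.Agent.Helper84_PFD.STG
import Pool.Agent.Helper58_PFC.RNG
import Pool.Agent.Helper86_PFC.Pen
import Pool.Agent.Helper33_PFD.LCU
import Pool.Agent.Helper24_PFD.RWF
import Pool.Agent.Helper30_PFD.UNM
import Pool.Agent.Helper49_PFD.UNG
import Pool.Agent.Helper91_PFD.RTC
import Pool.Agent.Helper68_PFD.CNR
import Pool.Agent.Helper35_PFD.BFS
import Pool.Agent.Helper52_PFD.WIT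

/-!
# Squad PFE: the parts E1 and E2 assembled

`tpe_ : TpeStmt` without hypotheses; `tpr_ : LfyStmt → TprStmt`.
-/

namespace Pool.Agent.PFE.H3

theorem txa_ : TxaStmt := H33.txa H82.txr

theorem stf_ : StfStmt := H52.stf (H77.nfr H82.txr)

theorem cfs_ : CfsStmt := H25.cfs H63.sgr

theorem cuf_ : CufStmt := H47.cuf cfs_

theorem kmx_ : KmxStmt :=
  H67.kmx (H58.spc cuf_ (H40.prj cuf_) (H55.twt (H86.knx txa_ H82.txr)))
    (H10.rfc H23.rtk H63.sgr) cfs_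

theorem kkl_ : KklStmt :=
  H32.kkl (H7.kzt H41.kcr H70.ktt Pool.Agent.PFD.D4.H91.rtc) Pool.Agent.PFD.H78.fot

/-- part E1 -/
theorem tpe_ : TpeStmt :=
  H1.tpe (H68.idf H82.txr) (H79.crn_ H82.txr txa_ H23.rtk) (H55.czf H23.rtk)
    (H47.nil H82.txr txa_) (H21.sfe stf_) (H58.rho H29.lsc H32.nws (H68.jpr txa_) txa_) H90.cce
    (H9.cfu cfs_) kmx_ kkl_ H27.zcb H81.zcs

theorem exx_ : Pool.Agent.PFD.D2.ExxStmt :=
  Pool.Agent.PFD.D2.H79.exx (Pool.Agent.PFD.D2.H94.plg (Pool.Agent.PFD.D2.H76.idg Pool.Agent.PFD.D2.H10.sug))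
    Pool.Agent.PFD.D2.H17.lbg
    (Pool.Agent.PFD.D2.H72.alx Pool.Agent.PFD.D2.H10.sug Pool.Agent.Helper86_PFC.pen
      (Pool.Agent.PFD.D2.H84.stg Pool.Agent.Helper86_PFC.pen))
    Pool.Agent.PFC.B1.H58.rng

theorem kef_ : KefStmt := H20.kef H23.yfp H70.Kex.kex

theorem fra_ : FraStmt := H28.fra H52.gfr H28.frt H53.frs

theorem ygr_ : YgrStmt := H41.ygr (H46.rtw H53.gwf H23.rtk)

theorem yky_ : YkyStmt := H80.yky H23.rtk H41.zpy (H91.hsy H23.rtk)

theorem lze_ : LzeStmt :=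
  H20.lze H53.gwf (H84.ory H53.gwf Pool.Agent.PFD.D2b.H33.lcu Pool.Agent.PFD.D2b.H24.rwf
    (Pool.Agent.PFD.D4.H30.unm Pool.Agent.PFD.D2.H49.ung))

theorem lye_ (lfy : LfyStmt) : LyeStmt :=
  H56.lye (H59.xex H10.gup) H21.xrd lfy (H92.spy H15.hoy) fra_ exx_

/-- part E2, over `F`, up to `LFY` -/
theorem tpr_ (lfy : LfyStmt) : TprStmt :=
  H40.tpr Pool.Agent.PFD.H52.wit (H2.gex H10.gup) (lye_ lfy) lze_
    (H13.zoy (H39.cly H23.yfp H70.Kex.kex)) Pool.Agent.PFD.D4.H68.cnr Pool.Agent.PFD.D4.H35.cnk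
    (H62.fsy H53.gwf) H13.ydr ygr_ (H10.lse txa_) (H1.nxo H70.Kex.kex) (H17.lsf txa_) H77.sfr
    (H85.wse stf_) (H53.zsy H32.tsv H44.wfx) H32.tsv H70.K1n.k1n (H20.k1u H25.hul)
    (H25.s1y H44.wfx) H15.s1f H32.bs1 H25.hul H41.byd yky_ H92.bls tpe_

end Pool.Agent.PFE.H3
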