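import Pool.Agent.PFE.StmtsE2c

set_option autoImplicit false

noncomputable section

namespace Pool.Agent.PFE.H3

open Pool.Agent.PFE

theorem rin (rat : RatStmt) (szn : S.SznStmt) : RinStmt := by
  intro ℓ F V E A V1 C S S0 _ _ _ _ _ _ _ _ _ _ _ _ _ _ _ _ _ _ φ NN α i W θ q q0 hC hI hcard
    hinj hdis hsup hW h1 h2 hθ hNN hq hq0
  obtain ⟨A', _, _, α', hM, _, hZ, hS⟩ := szn F V E A ℓ φ NN α hC hI
  obtain ⟨S', _, _, q', hq', hz'⟩ := hS V1 C i θ hcard hinj h1 S q hq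
  obtain ⟨S0', _, _, q0', hq0', hz0'⟩ := hS V1 Unit i 1 hcard hinj
    (fun _ => ⟨1, fun v => by simp⟩) S0 q0 hq0
  have h := rat ℓ F V E A' V1 C S' S0' φ NN α' i W θ q' q0' hC hM hcard hinj hdis hsup hW h1 h2
    hθ hNN hq' hq0'
  rw [← hZ, h, hz', hz0']

end Pool.Agent.PFE.H3
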