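import Pool.Agent.Helper3_PFE.AllP
import Pool.Agent.Helper3_PFE.RIN
import Pool.Agent.Helper7_PFE.LFY
import Pool.Agent.Helper13_PFE.YFT
import Pool.Agent.Helper58_PFE.FLT
import Pool.Agent.Helper58_PFE.SGY
import Pool.Agent.Helper84_PFE.SG1
import Pool.Agent.Helper15_PFE.RAT
import Pool.Agent.Helper28_PFE.AUG
import Pool.Agent.Helper56_PFE.CAZ
import Pool.Agent.Helper27_PFE.GYE
import Pool.Agent.Helper2_PFE.ORB
import Pool.Agent.Helper80_PFE.YFA
import Pool.Agent.Helper17_PFE.YFB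
import Pool.Agent.Helper32_PFE.OPA
import Pool.Agent.Helper41_PFE.OPB
import Pool.Agent.Helper13_PFE.OPC
import Pool.Agent.Helper94_PFE.OPV
import Pool.Agent.Helper39_PFE.Y0E
import Pool.Agent.Helper79_PFE.AllS
import Pool.Agent.Helper79_PFE.TopN

/-!
# Squad PFE: assembly of theorem (R) for algebras, up to the row LRC

`rin_of : LrcStmt → RinStmt`.
-/

namespace Pool.Agent.PFE.H3

theorem lfy_of (lrc : LrcStmt) : LfyStmt :=
  H7.lfy H52.gfr (H62.lhy kef_ H15.hoy) (H20.lby lrc H70.bby (H28.mfy kef_))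

theorem flt_ : FltStmt :=
  H58.flt (H94.opv (H41.opb (H32.opa H28.aug) H28.aug) H13.opc)
    (H13.yft (H80.yfa H2.orb H56.caz) (H17.yfb H2.orb H56.caz) H53.frs)

theorem sgy_ : SgyStmt := H58.sgy H56.caz

theorem rat_of (lrc : LrcStmt) : RatStmt :=
  H15.rat H79.txn_top H39Y.y0e H27.gye flt_ sgy_ (tpr_ (lfy_of lrc)) (H84.sg1 sgy_)

theorem rin_of (lrc : LrcStmt) : RinStmt := rin (rat_of lrc) H79.szn_

end Pool.Agent.PFE.H3
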