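import Pool.Agent.Helper3_PFE.AllQ
import Pool.Agent.Helper69_PFE.LRC

/-!
# Squad PFE: theorem (R) for algebras, without hypotheses
-/

namespace Pool.Agent.PFE.H3

theorem tpr_all : TprStmt := tpr_ (lfy_of H69.lrc)

theorem rat_ : RatStmt := rat_of H69.lrc

theorem rin_ : RinStmt := rin_of H69.lrc

end Pool.Agent.PFE.H3
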